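import Pool.Agent.H18.CGR.Stmts

set_option autoImplicit false

noncomputable section

namespace Pool.CGR

namespace H49CYZ

theorem yl_append {m : ℕ} (u v : List (Fin m ⊕ Fin m)) : yl (u ++ v) = yl u ++ yl v := by
  simp [yl, List.filterMap_append]

theorem map_yl_length {m : ℕ} (u : List (Fin m ⊕ Fin m)) : (yl u).length ≤ u.length := by
  unfold yl
  exact List.length_filterMap_le _ _

/-- `u` consists of left letters iff it equals its left part. -/
theorem cons_inl_iff {m : ℕ} (i : Fin m) (u : List (Fin m ⊕ Fin m)) :
    (Sum.inl i :: u = (yl (Sum.inl i :: u)).map Sum.inl) ↔ (u = (yl u).map Sum.inl) := by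
  simp [yl]

theorem append_inl_iff {m : ℕ} (i : Fin m) (u : List (Fin m ⊕ Fin m)) :
    (u ++ [Sum.inl i] = (yl (u ++ [Sum.inl i])).map Sum.inl) ↔ (u = (yl u).map Sum.inl) := by
  simp [yl, List.filterMap_append]

theorem mem_of_eq {m : ℕ} (i : Fin m) (u : List (Fin m ⊕ Fin m)) (h : Sum.inr i ∈ u) :
    ¬ (u = (yl u).map Sum.inl) := by
  intro he
  rw [he] at h
  simp at h

end H49CYZ

open H49CYZ in
theorem cyz_thm : CYZStmt := by
  intro m k hk i j u
  rcases i with i | i <;> rcases j with j | j
  · -- both are left letters
    simp only [kz]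
    have h1 : yl (u ++ [Sum.inl i]) = yl u ++ [i] := by simp [yl]
    have h2 : yl (Sum.inl j :: u) = j :: yl u := by simp [yl]
    by_cases hu : u = (yl u).map Sum.inl
    · rw [if_pos ((append_inl_iff i u).2 hu), if_pos ((cons_inl_iff j u).2 hu), h1, h2]
      exact hk i j (yl u)
    · rw [if_neg (fun h => hu ((append_inl_iff i u).1 h)),
        if_neg (fun h => hu ((cons_inl_iff j u).1 h))]
  · -- i left, j right
    simp only [kz]
    rw [if_neg, if_neg]
    · exact mem_of_eq j _ (by simp)
    · intro h
      have := congrArg List.getLast? h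
      simp at this
  · -- i right, j left
    simp only [kz]
    rw [if_neg, if_neg]
    · intro h
      simp at h
    · exact mem_of_eq i _ (by simp)
  · -- both right
    simp only [kz]
    by_cases hu : u = []
    · subst hu
      by_cases hij : i = j
      · subst hij
        simp
      · have hji : ¬ (j = i) := fun h => hij h.symm
        simp [hij, hji]
    · rw [if_neg, if_neg]
      · intro h
        simp at h
        exact hu h.2
      · intro h
        have h3 := congrArg List.length h
        simp at h3
        exact hu h3

end Pool.CGR
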